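import Mathlib

/-!
There are infinitely many `Δ`-primitive squares.
-/

namespace Pool.Agent.Results.MP_2b20db_nt.InfinitelyManyPrimitiveSquares

/-- `D*_n`: the differences `|a - b|` of complementary divisors `a b = n`. -/
def Dstar (n : ℕ) : Set ℤ :=
  {d | ∃ a ∈ n.divisors, ∃ b ∈ n.divisors, a * b = n ∧ d = |(a : ℤ) - (b : ℤ)|}

/-- `D⁺_n`: the sums of two nonzero elements of `D*_n`. -/
def Dplus (n : ℕ) : Set ℤ :=
  {s | ∃ x ∈ Dstar n, ∃ y ∈ Dstar n, x ≠ 0 ∧ y ≠ 0 ∧ s = x + y}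

/-- The `Δ` property: `D*_n ∩ D⁺_n ≠ ∅`. -/
def HasDelta (n : ℕ) : Prop := (Dstar n ∩ Dplus n).Nonempty

/-- `Δ`-primitive numbers. -/
def IsDeltaPrimitive (n : ℕ) : Prop :=
  0 < n ∧ HasDelta n ∧ ¬ ∃ α m : ℕ, 2 ≤ α ∧ 2 ≤ m ∧ n = α ^ 2 * m ∧ HasDelta m

/-- A pair of complementary divisors gives an element of `D*`. -/
theorem mem_Dstar {n a b : ℕ} (hn : 0 < n) (h : a * b = n) {d : ℤ}
    (hd : d = |(a : ℤ) - (b : ℤ)|) : d ∈ Dstar n :=
  ⟨a, Nat.mem_divisors.2 ⟨Dvd.intro _ h, hn.ne'⟩, b,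
    Nat.mem_divisors.2 ⟨Dvd.intro_left _ h, hn.ne'⟩, h, hd⟩

theorem not_hasDelta_one : ¬ HasDelta 1 := by
  rintro ⟨d, -, x, ⟨a, ha, b, hb, -, hx⟩, -, -, hx0, -, -⟩
  have h1 : a = 1 := by simpa using ha
  have h2 : b = 1 := by simpa using hb
  subst h1 h2
  simp at hx
  exact hx0 hx

/-- The family of squares with the `Δ` property coprime to any given modulus. -/
theorem exists_coprime (M : ℕ) (hM : 0 < M) : ∃ k : ℕ, 0 < k ∧ HasDelta (k ^ 2) ∧
    Nat.Coprime k M := by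
  -- parameters
  set w : ℕ := M with hw
  have hw1 : 1 ≤ w := hM
  set z : ℕ := 1 + 4 * w with hz
  obtain ⟨a, ha⟩ : ∃ a : ℕ, a + (4 * w + 1) = 16 * w ^ 3 := by
    refine ⟨16 * w ^ 3 - (4 * w + 1), Nat.sub_add_cancel ?_⟩
    have : w ≤ w ^ 3 := Nat.le_self_pow (by norm_num) w
    have h1 : 1 ≤ w ^ 3 := Nat.one_le_pow _ _ hw1
    omega
  set b : ℕ := 1 + 4 * w + 8 * w ^ 2 + 16 * w ^ 3 with hb
  set c : ℕ := 1 + 8 * w + 24 * w ^ 2 + 16 * w ^ 3 with hc
  set d : ℕ := 1 + 8 * w + 16 * w ^ 2 + 16 * w ^ 3 with hd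
  have haz : (a : ℤ) = 16 * (w : ℤ) ^ 3 - 4 * w - 1 := by
    have : (a : ℤ) + (4 * w + 1) = 16 * (w : ℤ) ^ 3 := by exact_mod_cast ha
    linarith
  have hwz : (1 : ℤ) ≤ w := by exact_mod_cast hw1
  have ha0 : 0 < a := by
    have : w ≤ w ^ 3 := Nat.le_self_pow (by norm_num) w
    omega
  have hzz : (z : ℤ) = 1 + 4 * w := by rw [hz]; push_cast; ring
  have hbz : (b : ℤ) = 1 + 4 * w + 8 * (w : ℤ) ^ 2 + 16 * (w : ℤ) ^ 3 := by rw [hb]; push_cast; ring
  have hcz : (c : ℤ) = 1 + 8 * w + 24 * (w : ℤ) ^ 2 + 16 * (w : ℤ) ^ 3 := by rw [hc]; push_cast; ring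
  have hdz : (d : ℤ) = 1 + 8 * w + 16 * (w : ℤ) ^ 2 + 16 * (w : ℤ) ^ 3 := by rw [hd]; push_cast; ring
  have hzpos : 0 < z := by omega
  have hbpos : 0 < b := by rw [hb]; positivity
  have hcpos : 0 < c := by rw [hc]; positivity
  have hdpos : 0 < d := by rw [hd]; positivity
  refine ⟨z * a * b * c * d, by positivity, ?_, ?_⟩
  · have hn : 0 < (z * a * b * c * d) ^ 2 := by positivity
    have hac : a < c := by
      have : (a : ℤ) < c := by rw [haz, hcz]; nlinarith [sq_nonneg (w : ℤ)]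
      exact_mod_cast this
    have hbd : b < d := by
      have : (b : ℤ) < d := by rw [hbz, hdz]; nlinarith [sq_nonneg (w : ℤ)]
      exact_mod_cast this
    have hab : a < b := by
      have : (a : ℤ) < b := by rw [haz, hbz]; nlinarith [sq_nonneg (w : ℤ)]
      exact_mod_cast this
    have hcd : c * 1 ≤ d * z := by
      have : (c : ℤ) ≤ d * z := by rw [hcz, hdz, hzz]; nlinarith [sq_nonneg (w : ℤ), pow_pos (by linarith : (0:ℤ) < w) 3, pow_pos (by linarith : (0:ℤ) < w) 4]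
      have h2 : c ≤ d * z := by exact_mod_cast this
      simpa using h2
    -- the three differences
    have e1 : ((z * b * d) ^ 2 : ℕ) * ((a * c) ^ 2) = (z * a * b * c * d) ^ 2 := by ring
    have e2 : (z * (c * d) ^ 2 : ℕ) * (z * (a * b) ^ 2) = (z * a * b * c * d) ^ 2 := by ring
    have e3 : (z ^ 2 * (a * b * c * d) : ℕ) * (a * b * c * d) = (z * a * b * c * d) ^ 2 := by ring
    have l1 : (a * c) ^ 2 < (z * b * d) ^ 2 := by
      apply Nat.pow_lt_pow_left _ (by norm_num)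
      calc a * c < b * c := Nat.mul_lt_mul_of_pos_right hab hcpos
        _ ≤ b * (d * z) := Nat.mul_le_mul_left _ (by simpa using hcd)
        _ = z * b * d := by ring
    have l2 : z * (a * b) ^ 2 < z * (c * d) ^ 2 := by
      apply Nat.mul_lt_mul_of_pos_left _ hzpos
      apply Nat.pow_lt_pow_left _ (by norm_num)
      calc a * b < c * b := Nat.mul_lt_mul_of_pos_right hac hbpos
        _ ≤ c * d := Nat.mul_le_mul_left _ hbd.le
    have l3 : a * b * c * d < z ^ 2 * (a * b * c * d) := by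
      have h1 : 1 < z ^ 2 := Nat.one_lt_pow (by norm_num) (by omega)
      have h2 : 0 < a * b * c * d := by positivity
      calc a * b * c * d = 1 * (a * b * c * d) := (one_mul _).symm
        _ < z ^ 2 * (a * b * c * d) := Nat.mul_lt_mul_of_pos_right h1 h2
    have l1' : (((a * c) ^ 2 : ℕ) : ℤ) < (((z * b * d) ^ 2 : ℕ) : ℤ) := by exact_mod_cast l1
    have l2' : ((z * (a * b) ^ 2 : ℕ) : ℤ) < ((z * (c * d) ^ 2 : ℕ) : ℤ) := by exact_mod_cast l2
    have l3' : ((a * b * c * d : ℕ) : ℤ) < ((z ^ 2 * (a * b * c * d) : ℕ) : ℤ) := by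
      exact_mod_cast l3
    refine ⟨_, mem_Dstar hn e1 rfl, _, mem_Dstar hn e2 rfl, _, mem_Dstar hn e3 rfl, ?_, ?_, ?_⟩
    · rw [abs_of_pos (by linarith)]; linarith
    · rw [abs_of_pos (by linarith)]; linarith
    · rw [abs_of_pos (by linarith), abs_of_pos (by linarith), abs_of_pos (by linarith)]
      push_cast
      rw [haz, hzz, hbz, hcz, hdz]
      ring
  · -- coprimality
    have key : ∀ (x : ℕ) (y : ℤ) (u : ℤ), (x : ℤ) = u + M * y → (u = 1 ∨ u = -1) →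
        Nat.Coprime x M := by
      intro x y u hx hu
      rw [← Nat.isCoprime_iff_coprime]
      rcases hu with rfl | rfl
      · exact ⟨1, -y, by rw [hx]; ring⟩
      · exact ⟨-1, y, by rw [hx]; ring⟩
    have c1 := key z 4 1 (by rw [hzz]; ring) (Or.inl rfl)
    have c2 := key a (16 * (w : ℤ) ^ 2 - 4) (-1) (by rw [haz]; ring) (Or.inr rfl)
    have c3 := key b (4 + 8 * (w : ℤ) + 16 * (w : ℤ) ^ 2) 1 (by rw [hbz]; ring) (Or.inl rfl)
    have c4 := key c (8 + 24 * (w : ℤ) + 16 * (w : ℤ) ^ 2) 1 (by rw [hcz]; ring) (Or.inl rfl)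
    have c5 := key d (8 + 16 * (w : ℤ) + 16 * (w : ℤ) ^ 2) 1 (by rw [hdz]; ring) (Or.inl rfl)
    exact Nat.Coprime.mul_left (Nat.Coprime.mul_left (Nat.Coprime.mul_left
      (Nat.Coprime.mul_left c1 c2) c3) c4) c5

/-- Each square with the `Δ` property is a multiple of a `Δ`-primitive square. -/
theorem exists_primitive (k : ℕ) (hk : 0 < k) (h : HasDelta (k ^ 2)) :
    ∃ j : ℕ, 1 < j ∧ j ∣ k ∧ IsDeltaPrimitive (j ^ 2) := by
  classical
  have hex : ∃ j : ℕ, 0 < j ∧ j ∣ k ∧ HasDelta (j ^ 2) := ⟨k, hk, dvd_rfl, h⟩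
  obtain ⟨hj0, hjk, hj⟩ := Nat.find_spec hex
  set j := Nat.find hex with hjdef
  have hj1 : 1 < j := by
    rcases Nat.lt_or_ge 1 j with h1 | h1
    · exact h1
    · have : j = 1 := by omega
      rw [this] at hj
      exact absurd (by simpa using hj) not_hasDelta_one
  refine ⟨j, hj1, hjk, by positivity, hj, ?_⟩
  rintro ⟨α, m, hα, hm, heq, hm'⟩
  have hαj : α ∣ j := by
    have : α ^ 2 ∣ j ^ 2 := Dvd.intro _ heq.symm
    exact (Nat.pow_dvd_pow_iff (by norm_num)).1 this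
  obtain ⟨i, hi⟩ := hαj
  have hmi : m = i ^ 2 := by
    have h1 : α ^ 2 * m = α ^ 2 * i ^ 2 := by rw [← heq, hi]; ring
    exact Nat.eq_of_mul_eq_mul_left (by positivity) h1
  have hi0 : 0 < i := by
    rcases Nat.eq_zero_or_pos i with h1 | h1
    · subst h1; simp at hmi; omega
    · exact h1
  have hij : i < j := by
    rw [hi]
    nlinarith
  exact Nat.find_min hex hij ⟨hi0, dvd_trans (Dvd.intro_left _ hi.symm) hjk, hmi ▸ hm'⟩

/-- There are infinitely many `Δ`-primitive squares. -/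
theorem result : {n : ℕ | (∃ k : ℕ, n = k ^ 2) ∧ IsDeltaPrimitive n}.Infinite := by
  classical
  intro hfin
  set M : ℕ := ∏ n ∈ hfin.toFinset, n with hM
  have hMpos : 0 < M := by
    apply Finset.prod_pos
    intro n hn
    rw [Set.Finite.mem_toFinset] at hn
    exact hn.2.1
  obtain ⟨k, hk, hkd, hkM⟩ := exists_coprime M hMpos
  obtain ⟨j, hj1, hjk, hj⟩ := exists_primitive k hk hkd
  have hjM : j ^ 2 ∣ M := Finset.dvd_prod_of_mem _ ((Set.Finite.mem_toFinset _).2 ⟨⟨j, rfl⟩, hj⟩)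
  have h1 : j ∣ M := dvd_trans (Dvd.intro_left (j ^ 1) (by ring)) hjM
  have h2 : j ∣ Nat.gcd k M := Nat.dvd_gcd hjk h1
  rw [hkM] at h2
  have := Nat.le_of_dvd one_pos h2
  omega

end Pool.Agent.Results.MP_2b20db_nt.InfinitelyManyPrimitiveSquares
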